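import Pool.Agent.DSV.Low

/-!
Every family of `n` hyperplanes of `ℝ^d` (`d ≥ 2`) in general position contains a subfamily of at least
`c n ^ (1 / (d (2 d + 1)))` hyperplanes with distinct simplex volumes, so `D_d(n)` is at least this number.
-/

namespace Pool.Agent.Results.MP_5afd6b_co.LowerBound

open DSV

theorem result (d : ℕ) (hd : 2 ≤ d) : ∃ c : ℝ, 0 < c ∧ ∀ n : ℕ, 1 ≤ n →
    ∀ H : Fin n → Set (Fin d → ℝ), GenPos H →
      ∃ S : Finset (Fin n), c * (n : ℝ) ^ (1 / (d * (2 * d + 1)) : ℝ) ≤ S.card ∧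
        DistinctVol H S :=
  low_family d hd

end Pool.Agent.Results.MP_5afd6b_co.LowerBound
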