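import Pool.Agent.SzT.Fin2

/-!
Every family of `n` lines of the plane in general position contains a subfamily of at least `n ^ (2/15) / 6` lines all of
whose triangles have different areas, so `D_2(n)` is at least this number.
-/

set_option autoImplicit false

namespace Pool.Agent.Results.MP_5afd6b_co.PlanarLines

open Pool.Agent.DSV

theorem result : ∀ n : ℕ, 1 ≤ n → ∀ H : Fin n → Set (Fin 2 → ℝ), GenPos H →
    ∃ S : Finset (Fin n), (n : ℝ) ^ (2 / 15 : ℝ) / 6 ≤ S.card ∧ DistinctVol H S :=
  fun _ hn H hH => Pool.Agent.SzT.planar_lines hn H hH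

end Pool.Agent.Results.MP_5afd6b_co.PlanarLines
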