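import Pool.Agent.DSV.Up

/-!
For all `d ≥ 2` and `n` some family of `n` hyperplanes of `ℝ^d` in general position has no subfamily of more than
`√(2 (d + 1) n)` hyperplanes with distinct simplex volumes, so `D_d(n) ≤ √(2 (d + 1) n)`.
-/

namespace Pool.Agent.Results.MP_5afd6b_co.UpperBound

open DSV

theorem result (d n : ℕ) (hd : 2 ≤ d) : ∃ H : Fin n → Set (Fin d → ℝ), GenPos H ∧
    ∀ S : Finset (Fin n), DistinctVol H S → (S.card : ℝ) ≤ √(2 * (d + 1) * n) := by
  obtain ⟨H, hH, h⟩ := up_family d n (by omega)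
  refine ⟨H, hH, fun S hS => ?_⟩
  apply Real.le_sqrt_of_sq_le
  exact_mod_cast h S hS

end Pool.Agent.Results.MP_5afd6b_co.UpperBound
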